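import Pool.Agent.X245.ABA.Alg

/-!
# ABA-free hypergraphs are recognised in polynomial time

A hypergraph is ABA-free if its vertices have an ordering such that for no hyperedges `H`, `L` there
are `a, c ∈ H \ L` and `b ∈ L \ H` in the order `a, b, c`; in other words, for all hyperedges `H`, `L`
one of the sets `H \ L` and `L \ H` comes before the other one. It is proved that this can be decided
in polynomial time, so the problem is not NP-complete unless `P = NP`. The remaining case `k = 1` of
the problems of `(AB)^k A`-freeness is therefore different from all the others.

Definitions (in `Pool/Agent/X245/ABA/Core.lean`, `Order.lean`, `Alg.lean`):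

* `Before π x y`: `x` comes before `y` in the list `π`; `Pattern π H L`: there are `a, c ∈ H \ L` and
  `b ∈ L \ H` in the order `a, b, c`;
* `ABAFree V E`: some permutation of the list `V` has no pattern for any `H, L ∈ E`;
* `Step E p q`, for pairs of vertices `p = (p₁, p₂)` and `q = (q₁, q₂)`: there are `H, L ∈ E` with
  `p₁, q₁ ∈ H \ L` and `p₂, q₂ ∈ L \ H`;
* `NoConflict E`: there is no chain of such steps from `(a, b)` to `(b, a)`, for any pair `(a, b)` that
  is separated by two hyperedges;
* `ABA (V, E)`: `V` has no repetitions, all hyperedges are contained in `V`, and `ABAFree V E`.

The proof. If `Step E p q` then every ABA-free ordering orders `p` and `q` in the same way; so a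
conflict is an obstruction. Conversely suppose that there is no conflict. Call the classes of the
equivalence relation generated by `Step` implication classes. Each class, or its reversal, is called
positive: the one whose lexicographically smallest pair is increasing (vertices are numbers). If
`(a, b)` and `(b, c)` are positive then `a` and `c` are separated: otherwise, for instance, all
hyperedges that contain `a` also contain `c`, and then `(a, b)` and `(c, b)` are in the same class. So
it is enough to exclude cyclic triples `(a, b)`, `(b, c)`, `(c, a)` of positive pairs; then the
positive pairs are a partial order, and each of its linear extensions is ABA-free. For a cyclic triple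
either no hyperedge meets `{a, b, c}` in two vertices, or none meets it in one vertex, and it follows
that for every step from `(a, b)` to `(a', b')` there are steps from `(b, c)` to `(b', c)` and from
`(c, a)` to `(c, a')` (this is the analogue of the triangle lemma of Gallai for comparability graphs).
Let `(a₀, b₀)` be the smallest pair of the three classes, say in the class of `(a, b)`. Then
`(c, a₀)` is in the class of `(c, a)`, whose smallest pair must be of the form `(a₀, z)`; by the
triangle lemma for the step chain from `(c, a₀)` to `(a₀, z)` also `(b₀, a₀)` is positive, a
contradiction. This is the argument of Hell and Huang for comparability graphs.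
-/

set_option autoImplicit false

namespace Pool.Agent.Results.MP_a698a1_lc.AbaFreeInP

open Pool.Agent.NPC Pool.Agent.X245.ABA

/-- A hypergraph is ABA-free if and only if no implication class contains a pair and its reversal. So
it can be decided in polynomial time whether a hypergraph is ABA-free, and this problem is not
`NP`-hard unless `P = NP`. -/
theorem result :
    (∀ (V : List ℕ) (E : List (List ℕ)), (∀ H ∈ E, ∀ v ∈ H, v ∈ V) →
      (ABAFree V E ↔ NoConflict E)) ∧
    InPP ABA ∧ (NPHardP ABA → ∀ L, InNP L → InP L) :=
  ⟨fun _ _ hE => free_iff hE, inPP_ABA, fun h => NPHard.collapse h inPP_ABA⟩

end Pool.Agent.Results.MP_a698a1_lc.AbaFreeInP
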